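import Pool.Agent.H17.HKS3

set_option autoImplicit false

namespace Pool.Agent.Results.MP_56c58d_co.ClassPFalse

open Pool.Agent.H17.HKS

theorem result : ∃ (φ : Fin 3 → List (Fin 3)) (u : ℕ → Fin 3),
    Prim φ ∧ IsImage φ u u ∧ Palindromic u ∧
      ∀ (ψ : Fin 3 → List (Fin 3)) (v : ℕ → Fin 3),
        Prim ψ → ClassP' ψ → IsImage ψ v v → lang v ≠ lang u :=
  ⟨ph, uu, ph_prim, ph_fix, uu_pal, fun ψ v h1 h2 h3 h4 => no_classP ψ v h1 h2 h3 h4⟩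

end Pool.Agent.Results.MP_56c58d_co.ClassPFalse
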